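import Pool.Agent.Helper93.KS.All3
import Pool.Agent.Helper60.GP.All
import Pool.Agent.Helper48.BK.Top
import Pool.Agent.Helper42.EL.M_RT
import Pool.Agent.Helper71.EL.M_B30
import Pool.Agent.Helper68.EL.M_C8E
import Pool.Agent.Helper2.EL.M_VLE
import Pool.Agent.Helper8.EL.M_BVE
import Pool.Agent.Helper73.EL.M_LVE
import Pool.Agent.Helper63.EL.M_T1E
import Pool.Agent.Helper53.EL.M_FSE
import Pool.Agent.Helper92.EL.M_CQE
import Pool.Agent.Helper7.EL.M_PSE
import Pool.Agent.Helper30.EL.M_PTE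
import Pool.Agent.Helper3.EL.M_SEL
import Pool.Agent.Helper72.EL.M_NCH
import Pool.Agent.Helper21.EL.M_DIS
import Pool.Agent.Helper84.EL.M_SWB
import Pool.Agent.Helper55.EL.M_BOX
import Pool.Agent.Helper86.EL.M_ONE
import Pool.Agent.Helper61.EL.M_GNE
import Pool.Agent.Helper89.EL.M_KSI
import Pool.Agent.Helper29.EL.M_FIN

/-!
# Project EL: assembly
-/

set_option autoImplicit false

namespace Pool.Agent.Helper30.EL

open Pool.Agent

theorem pLVE : StLVE :=
  Helper73.EL.hLVE (Helper8.EL.hBVE Helper60.GP.pB3) Helper18.TR.pf_Level Helper42.EL.hRT Helper15.AB.hDB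

theorem pC8E : StC8E := Helper68.EL.hC8E Helper18.TR.bonf Helper18.TR.flMain Helper42.EL.hRT

theorem pVLE : StVLE := Helper2.EL.hVLE Helper15.AB.hMT Helper42.EL.hRT

theorem pFSE : StFSE := Helper53.EL.hFSE Helper93.KS.pBXQ Helper93.KS.pT1
  (Helper63.EL.hT1E Helper93.KS.pT1 Helper93.KS.pDK) Helper95.KS.hCEL

theorem pCQE : StCQE := Helper92.EL.hCQE pLVE pC8E pVLE Helper9.TW.hC9 Helper69.KS.hBMQ Helper60.GP.pB4

theorem pSEL : StSEL := Helper3.EL.hSEL pLVE pC8E pVLE Helper71.EL.hB30 Helper60.GP.pB4 Helper60.GP.pB5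

theorem pBOX : StBOX := Helper55.EL.hBOX Helper72.EL.hNCH Helper89.KS.hSQR Helper93.KS.pDUA Helper60.GP.pM2

theorem pONE : StONE := Helper86.EL.hONE Helper21.EL.hDIS (Helper84.EL.hSWB Helper48.BK.tSW) pBOX

theorem pFIN : StFIN := Helper29.EL.hFIN pCQE pFSE (Helper7.EL.hPSE Helper42.EL.hRT) pSEL pONE
  (Helper61.EL.hGNE Helper42.EL.hRT Helper60.GP.pM2) Helper71.EL.hB30
  (Helper89.EL.hKSI Helper30.EL.hPTE Helper71.EL.hB30) Helper60.GP.pB5

end Pool.Agent.Helper30.EL
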