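import Pool.Agent.Helper93.KS.St3
import Pool.Agent.Helper60.GP.St
import Pool.Agent.Helper48.BK.StD

/-!
# Project EL (MP_2d2425_nt): every large `n` has `k < 2 n` with `2 n + σ(k)` a product of at most five primes

Definitions. `k = (s q) ^ 2` with primes `s ≠ q`, `c = s ^ 2 + s + 1`, so `2 n + σ(k) = 2 n + c (q ^ 2 + q + 1) = vv n c q`.
-/

set_option autoImplicit false

noncomputable section

namespace Pool.Agent.Helper30.EL

open Finset Filter Topology ArithmeticFunction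
open Pool.Agent.Helper9.TW (gm Qs fm)
open Pool.Agent.Helper93.KS (bq idq ejq Gb UQ LQ)
open Pool.Agent.Helper60.GP (II)

/-- `2 n + c (q ^ 2 + q + 1)` -/
def vv (n c q : ℕ) : ℕ := 2 * n + c * (q ^ 2 + q + 1)

/-- the nonzero roots modulo `p` -/
def rt (n c p : ℕ) : Finset ℕ := (range p).filter (fun r => r ≠ 0 ∧ p ∣ vv n c r)

/-- the density of `p` in the values at primes `q` -/
def gd (n c p : ℕ) : ℝ := ((rt n c p).card : ℝ) / ((p : ℝ) - 1)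

open Classical in
/-- the weights of the fundamental lemma at `q` -/
def tq (i a : ℕ) (θ : ℝ) (f n c q : ℕ) : ℝ :=
  ∑ D ∈ fm i a θ f, (-1 : ℝ) ^ D.card * ∏ p ∈ D, (if p ∣ vv n c q then (1 : ℝ) else 0)

/-- their mean value -/
def Tm (i a : ℕ) (θ : ℝ) (f n c : ℕ) : ℝ := ∑ D ∈ fm i a θ f, (-1 : ℝ) ^ D.card * ∏ p ∈ D, gd n c p

open Classical in
/-- indicator function of: no prime of `Qs` divides `vv n c q` -/
def q0 (a : ℕ) (θ : ℝ) (n c q : ℕ) : ℝ := if ∀ p ∈ Qs a θ, ¬ p ∣ vv n c q then 1 else 0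

/-- the primes `q ≤ 3 x` in the class `b` modulo 30 -/
def PB (x : ℝ) (b : ℕ) : Finset ℕ := (II x).filter (fun q => q.Prime ∧ q % 30 = b)

/-- the weight of `q` -/
def wq (ω : ℝ → ℝ) (x : ℝ) (q : ℕ) : ℝ := Λ q * ω (Real.log (q / x))

/-- minus the discriminant of `c (X ^ 2 + X + 1) + 2 n` -/
def dd (n c : ℕ) : ℕ := c * (3 * c + 8 * n)

/-- the sum of the character of the discriminant `- D` over the box `i` -/
def cs (a u i D : ℕ) : ℝ := ∑ p ∈ bq a (1 / (100 * u)) i, (jacobiSym (-(D : ℤ)) p : ℝ) / p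

/-- the densities of the boxes `j0 ≤ i < J` are those of dimension one -/
def GN (u j0 J : ℕ) (η : ℝ) (a n c : ℕ) : Prop :=
  ∀ i ∈ Ico j0 J, Gb a (1 / (100 * u)) (gd n c) i ≤ gm i + η

/-- the choice of parameters: level `a ^ (Lv / 100)`, `z = a ^ (z₀ / 100)`, Richert's weights up to `a ^ (J₀ / 100)` with
the factor `lam`, boxes with `ω = 1 / (100 u)` -/
def FSy (z₀ J₀ Lv : ℕ) (lam : ℝ) : Prop := ∀ θ : ℝ, 0 < θ → θ ≤ 1 / 100 → ∃ u j0 : ℕ,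
  1 ≤ u ∧ 50 ≤ j0 ∧ j0 ≤ z₀ * u ∧ (j0 : ℝ) * (1 / (100 * u)) ≤ θ ∧ ∃ (l0 u0 : ℝ) (w : ℕ → ℝ),
    0 ≤ l0 ∧ 0 ≤ u0 ∧ (∀ j, 0 ≤ w j) ∧
    LQ 1 (1 / (100 * u)) j0 (Lv * u) (z₀ * u) l0 ∧ UQ 1 (1 / (100 * u)) j0 (Lv * u) (z₀ * u) u0 ∧
    (∀ j ∈ Ico (z₀ * u) (J₀ * u), UQ 1 (1 / (100 * u)) j0 (Lv * u - (j + 1)) (z₀ * u) (w j)) ∧
    0 < (1 - l0) - 2 / 1000 * (1 + u0) - 1001 / 1000 * lam *
      ∑ j ∈ Ico (z₀ * u) (J₀ * u), gm j * (1 - (j : ℝ) / (J₀ * u)) * (1 + w j)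

end Pool.Agent.Helper30.EL
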