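import Pool.Agent.Helper30.EL.Defs

/-!
# Project EL (MP_2d2425_nt): statements of the modules, with complete proofs

THEOREM. There are `C` and `n₀` such that for every `n ≥ n₀` at least `√n / (log n) ^ C` integers `0 < k < 2 n` are such that
`2 n + σ(k)` has at most five prime factors, all of them at least `n ^ (1/25)`.

Overview. `k = (s q) ^ 2`, `s ≤ (log n) ^ C₁` and `q` primes, `c = s ^ 2 + s + 1` prime to `2 n`, `σ(k) = c (q ^ 2 + q + 1)`, base `a = ⌊√n⌋`, `q ≤ a / s`. The values are `≤ a ^ 2.001`, the level of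
distribution is `a ^ 0.48` (Bombieri-Vinogradov). If the densities of the primes `p ≥ a ^ θ` are those of dimension one (`GN`), the box sieve of project KS (`Pool/Agent/Helper93/KS`) and Richert's weights give
at most five prime factors. The density of `p` is governed by the real character `(- dd n c / p)`. For a given `c` it may be biased (conductor `~ n`), but: for different `c` either the characters are different, and then by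
duality (`Pool.Agent.Helper93.KS.StDUA`) only boundedly many are biased on a box, or they are equal, and then `dd n c = d w ^ 2` with `d ≤ (log n) ^ C`, and there is no bias by Siegel-Walfisz. So one of the `K + 1` numbers `c` works.

Models: `Pool/Agent/Helper93/KS/{Defs,St,St2,St3,All5,All3}.lean` (names of all proved modules in All5, All3). Proved facts which may be imported:
`Pool.Agent.Helper60.GP.pB3 : StBVc`, `pB4 : StPNT`, `pB5 : StBump`, `pM2 : StM2` (in `Helper60/GP/All.lean`), `Pool.Agent.Helper48.BK.tSW : StSW` (`Helper48/BK/Top.lean`), `Pool.Agent.Helper15.AB.hDB : StDB`, `hMT : StMT`,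
`Pool.Agent.Helper18.TR.{bonf, flMain, pf_Level}`, `Pool.Agent.Helper9.TW.hC9`, `Pool.Agent.Helper69.KS.hBMQ`, `Pool.Agent.Helper93.KS.{pBXQ, pT1, pDK, pDUA}`, `Pool.Agent.Helper95.KS.hCEL`, `Pool.Agent.Helper89.KS.hSQR`.
-/

set_option autoImplicit false

noncomputable section

namespace Pool.Agent.Helper30.EL

open Finset Filter Topology ArithmeticFunction
open Pool.Agent.Helper9.TW (gm Qs fm StC9)
open Pool.Agent.Helper18.TR (StBonf StFLmain StLevel)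
open Pool.Agent.Helper15.AB (Th StDB StMT)
open Pool.Agent.Helper60.GP (II IsB JJ Err StBVc StPNT StBump StM2)
open Pool.Agent.Helper48.BK (StSW)
open Pool.Agent.Helper93.KS (bq Pq SW bmq idq ejq mg Gb Vq AD UQ LQ HU HL StBXQ StT1 StDK StCEL StBMQ StSQR StDUA)

/-! ## L. Local factors, the fundamental lemma, the level -/

/-- (RT, no hypotheses.) PROOF. `c` is odd, so `vv n c q` is odd for every `q` (`q ^ 2 + q + 1` is odd): `p = 2` has no roots. If `p ∣ c` then `vv n c r ≡ 2 n ≢ 0`. If `p ∤ 2 c`: for two different roots `r, t < p`, `p ∣ c (r - t)(r + t + 1)`, so `t ≡ - 1 - r`: at most two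
roots. Completing the square, `4 c (vv n c r) = (c (2 r + 1)) ^ 2 + dd n c`; so if `p ∤ 2 dd n c`, the number of all roots modulo `p` is the number of the square roots of `- dd n c` modulo `p` (`r ↦ c (2 r + 1)` is a bijection of `ZMod p`), which is
`1 + legendreSym p (- dd n c)` (`legendreSym.card_sqrts`, `legendreSym.to_jacobiSym`). Compare `Pool/Agent/Helper65/KS/M_RNL.lean`. (`n = 0` forces `c = 1`.) -/
def StRT : Prop := ∀ n c p : ℕ, p.Prime → Nat.Coprime c (2 * n) → (rt n c p).card ≤ 2 ∧ (p ∣ 2 * c → rt n c p = ∅) ∧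
  ((¬ p ∣ 2 * dd n c) → (((rt n c p).card : ℕ) : ℤ) ≤ 1 + jacobiSym (-(dd n c : ℤ)) p)

/-- (B30, no hypotheses.) PROOF. Modulo 2: `q` odd (any `q`). Modulo 3: if `3 ∤ n` the class `1` (`q ^ 2 + q + 1 ≡ 0`), if `3 ∣ n` then `3 ∤ c` and the class `2` (`q ^ 2 + q + 1 ≡ 1`). Modulo 5: the values of `q ^ 2 + q + 1` at `1, 2, 3, 4` are `3, 2, 3, 1`; if `5 ∣ c` then
`5 ∤ n` and every class works, otherwise at most one of the values `2 n + 3 c`, `2 n + 2 c`, `2 n + c` is `≡ 0`. A finite check over `n % 30`, `c % 30`. -/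
def StB30 : Prop := ∀ n c : ℕ, Nat.Coprime c (2 * n) → ∃ b : ℕ, b < 30 ∧ Nat.Coprime b 30 ∧
  ∀ q : ℕ, q % 30 = b → Nat.Coprime (vv n c q) 30

/-- (C8E, assume `hB : StBonf`, `hF : StFLmain`, `h1 : StRT`.) PROOF. As the proof of `StC8P` (`Pool/Agent/Helper93/KP/St.lean`; see `Helper39/KP/M_C8P.lean`): `StFLmain` with `κ = 3`, `ε = 1 / 1000` gives the even number `f` (`0 ≤ gd n c p ≤ 2 / (p - 1) ≤ 3 / p`, `≤ 1 / 2`
for `p ≥ 7`); `StBonf` with `g p = 1[p ∣ vv n c q]` (`∏ (1 - g p) = q0`) and with `g = gd n c`. -/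
def StC8E : Prop := ∃ f : ℕ, Even f ∧ ∀ (a n c : ℕ) (θ : ℝ), Nat.Coprime c (2 * n) → 2 ≤ a → 0 < θ →
  (∀ q : ℕ, tq 1 a θ f n c q ≤ q0 a θ n c q ∧ q0 a θ n c q ≤ tq 0 a θ f n c q) ∧
  ∏ p ∈ Qs a θ, (1 - gd n c p) ≤ Tm 0 a θ f n c ∧
  Tm 0 a θ f n c ≤ (1 + 1 / 1000) * ∏ p ∈ Qs a θ, (1 - gd n c p) ∧
  (1 - 1 / 1000) * ∏ p ∈ Qs a θ, (1 - gd n c p) ≤ Tm 1 a θ f n c ∧
  Tm 1 a θ f n c ≤ ∏ p ∈ Qs a θ, (1 - gd n c p)

/-- (VLE, assume `hM : StMT`, `h1 : StRT`.) PROOF. As `StVLP` (`Pool/Agent/Helper81/KP/`): `1 - gd n c p ≥ 1 - 3 / p`. -/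
def StVLE : Prop := ∃ c₀ : ℝ, 0 < c₀ ∧ ∀ (a n c : ℕ) (θ : ℝ), Nat.Coprime c (2 * n) → 3 ≤ a → 0 < θ → θ ≤ 1 →
  c₀ / Real.log a ^ 3 ≤ ∏ p ∈ Qs a θ, (1 - gd n c p) ∧ ∏ p ∈ Qs a θ, (1 - gd n c p) ≤ 1

/-- (BVE, assume `hB : StBVc`.) Bombieri-Vinogradov with divisor weights. PROOF. Let `θ < θ' < 1 / 2`. For `d ≤ x ^ θ`, `q = 30 d ≤ x ^ θ'` (large `x`). Trivial bound for `q ≤ x`: `Err ω x q b ≤ C x (log x) / q + Th ω x / φ(q)`, and with `Th ω x ≤ 3 x log (3 x)`,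
`1 / φ(q) ≤ C (log x) / q` (or `φ(q) ≥ q / 2 ^ {ω(q)}`), so `Err ≤ C x (log x) ^ 2 / d` (or with an additional factor `2 ^ {ω(d)}`). Cauchy-Schwarz: `(∑ 2 ^ {ω(d)} Err) ^ 2 ≤ (∑ 4 ^ {ω(d)} Err)(∑ Err)`; the first factor is at most `C x (log x) ^ 2 ∑_{d ≤ x, squarefree} 8 ^ {ω(d)} / d ≤ C x (log x) ^ {2 + 8}`
(`∑_{d ≤ D squarefree} m ^ {ω(d)} / d ≤ (∑_{e ≤ D} 1 / e) ^ m`: `m ^ {ω(d)}` is the number of ordered factorizations of a squarefree `d` into `m` factors; or `∏_{p ≤ D} (1 + m / p)`), the second factor is at most `x / (log x) ^ A'` by StBVc with `θ'` and `A' = 2 A + 11` (the numbers `30 d` are different). -/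
def StBVE : Prop := ∀ ω : ℝ → ℝ, IsB ω → ∀ (A : ℕ) (θ : ℝ), 0 < θ → θ < 1 / 2 → ∃ x₀ : ℝ, ∀ x : ℝ, x₀ ≤ x →
  ∀ b : ℕ → ℤ, (∀ q : ℕ, 1 ≤ q → IsCoprime (b q) (q : ℤ)) →
    ∑ d ∈ (Icc 1 ⌊x ^ θ⌋₊).filter Squarefree, (2 : ℝ) ^ d.primeFactors.card * Err ω x (30 * d) (b (30 * d)) ≤
      x / Real.log x ^ A

/-- (LVE, assume `hB : StBVE`, `hLv : StLevel`, `hR : StRT`, `hDB : StDB`.) Level of distribution. PROOF. `B₀` from `StLevel f`, `θ₁ = 1 / (1000 (B₀ + 1))`; `a` large, so `a ^ θ > 7`. Expand: `∑_{D ∈ fm i a θ f} (-1) ^ |D| ∑_m lam m ∑_{q ∈ PB x b} wq q 1[p ∣ vv n c q for all p ∈ D and all p ∣ m]`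
(`vv ≥ 1`, `m ∣ vv` iff all primes of the squarefree `m` divide). The primes of `D` are in `[7, a ^ θ)`, those of `m` (with `lam m ≠ 0`) are `≥ a ^ (j0 ω') ≥ a ^ θ`; so `d = m ∏ D` is squarefree, prime to 30, `d ≤ a ^ (θ B₀) a ^ (48 / 100) ≤ a ^ (485 / 1000) ≤ x ^ (49 / 100)`, and every `d` comes from at most one pair
`(D, m)`, with coefficient at most `B` in absolute value. `PB x b` contains only primes; those with `wq ≠ 0` are `≥ x > d`, so they are prime to `d`, and the condition is: `q % p ∈ rt n c p` for all `p ∣ d`, i.e. `q` is in one of `∏_{p ∣ d} |rt n c p| ≤ 2 ^ {ω(d)}` classes `r` modulo `d`, all prime to `d`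
(Chinese remainder theorem). With `q ≡ b` modulo 30 this is a class `r'` modulo `30 d`, prime to `30 d`. For each class `∑_{q ≡ r' (30 d)} Λ q ω(log (q / x)) = Th ω x / φ(30 d) + O(Err ω x (30 d) r')`, and the prime powers `q` contribute at most `C √x (log x) ^ 2`. `φ(30 d) = 8 ∏_{p ∣ d} (p - 1)`, so the main terms sum to
`(Th ω x / 8) Tm mg` (`∏_{p ∣ d} |rt| / (p - 1) = ∏ gd`; all `m ≤ a ^ 2`). Errors: at most `B ∑_d 2 ^ {ω(d)} max_r Err` (choose the worst class for every `d`: BVE with `A + 1`) plus `B x ^ (49/100) x ^ (1/100 · 1/10) C √x (log x) ^ 2` (`2 ^ {ω(d)} ≤ τ(d) ≤ C d ^ ε`, StDB). Compare `Pool/Agent/Helper66/KS/M_TYI.lean`,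
`Pool/Agent/Helper9/SU/M_ERR.lean`. -/
def StLVE : Prop := ∀ ω : ℝ → ℝ, IsB ω → ∀ f : ℕ, ∃ θ₁ : ℝ, 0 < θ₁ ∧ θ₁ ≤ 1 / 100 ∧ ∀ θ : ℝ, 0 < θ → θ ≤ θ₁ → ∀ A : ℕ,
  ∃ a₀ : ℕ, ∀ (i a n c b j0 j : ℕ) (x ω' y B : ℝ) (lam : ℕ → ℝ), a₀ ≤ a → Nat.Coprime c (2 * n) → b < 30 → Nat.Coprime b 30 →
  (a : ℝ) ^ (999 / 1000 : ℝ) ≤ x → x ≤ a → 0 < ω' → θ ≤ (j0 : ℝ) * ω' → 0 ≤ B → 0 ≤ y → y ≤ 48 / 100 →
  SW a ω' j0 j y B lam →
  |∑ q ∈ PB x b, wq ω x q * (tq i a θ f n c q * ∑ m ∈ (vv n c q).divisors, lam m) -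
    Th ω x / 8 * Tm i a θ f n c * mg a (gd n c) lam| ≤ B * (x / Real.log x ^ A)

/-! ## F. The numerical part -/

/-- (T1E, assume `hT : StT1`, `hK : StDK`.) PROOF. From `HU 1 S (17 / 16) (2485 / 1000)` by `StDK` with `K = 16`, `κ = 1`: `c_i = ((i + 1) / i) c_{i+1} + 1 / i`, i.e. `1 + c_i = ((i + 1) / i)(1 + c_{i+1})`, so `1 + c_i = 17 · 3.485 / i = 59.245 / i` for `i = 16, ..., 1` (descending induction), and larger constants are valid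
(`um`; unfold `HU`, `Bx`): `59.245 / 14 < 4.24`, `/ 10 < 5.93`, `/ 7 < 8.47`, `/ 3 < 19.75`. -/
def StT1E : Prop := ∀ S : ℕ, HU 1 S (14 / 16) (324 / 100) ∧ HU 1 S (10 / 16) (493 / 100) ∧ HU 1 S (7 / 16) (747 / 100) ∧
  HU 1 S (3 / 16) (1875 / 100)

/-- (FSE, assume `hB : StBXQ`, `hT : StT1`, `hE : StT1E`, `hC : StCEL`.) PROOF. As `Pool/Agent/Helper13/KS/M_FS1.lean` (FS1). Let `S = ⌈1.5 / θ⌉`, `u` large, `j0 = ⌊100 u θ⌋ ≥ 50`, `ω = 1 / (100 u)`; BXQ with `Nm = S j0`. `l0 = u0 = 34 / 10000` from `s = 48 / 9 ≥ 83 / 16`.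
Cells (times `u`) `[9, 11)`, `[11, 15)`, `[15, 18)`, `[18, 21)`, `[21, 24)`, `[24, 29)`, `[29, 33)`, `[33, 38)`, `[38, 40)`, `[40, 42)`, `[42, 44)`, `[44, 46)` with `s = 65, 58, 53, 48, 41, 33, 26, 17, 14, 10, 7, 3` sixteenths (`48 u - (j + 1) ≥ (48 - j2) u ≥ s · 9 u`; `(48 - j2) / 9 ≥ s`), and `w j` = the constant of T1 or T1E
plus `1 / 10000`. By CEL with `J = 46` the sum is at most `1.21` (the cell contributions, with `log (j2 / j1)` in place of the bound of CEL, are `0.1617, 0.2385, 0.1320, 0.1098, 0.0987, 0.1446, 0.0963, 0.1128, 0.0331, 0.0315, 0.0258, 0.0194`; CEL's `(j2 ^ 2 - j1 ^ 2) / (2 j1 j2)` adds a little, the total is below `1.24`; if a cell is too wide split it),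
and `(1 - 0.0034) - 0.002 · 1.0034 - 1.001 · 0.61 · 1.26 > 0.22`. -/
def StFSE : Prop := FSy 9 46 48 (61 / 100)

/-! ## C. Combination and the end of the sieve -/

/-- (CQE, assume `hL : StLVE`, `h8 : StC8E`, `hV : StVLE`, `h9 : StC9`, `hB : StBMQ`, `hP : StPNT`.) PROOF. As `Pool/Agent/Helper84/KS/M_CQ.lean`. `f` from C8E, `θ₁` from LVE for `ω`, `f`; FSy for `θ₁` gives `u`, `j0` and the weights `Lam⁻`, `Lam⁺`, `Lam_i`; `ω' = 1 / (100 u)`, `θ = j0 ω'`. For `q ∈ PB x b` use C9 with `I₀ = q0`,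
`A = idq` at `v = vv n c q`, `t₀ = tq 0`, `t₁ = tq 1` (C8E), `Am`, `Ap` the divisor sums of `Lam⁻`, `Lam⁺` at `v ≥ 1`, `e i = ejq i`, `Aj i = e i ∑ Lam_i ≥ e i A`, `c i = lam (1 - i / (J₀ u)) ≥ 0`. Multiply by `wq ≥ 0`, sum over `q` and apply LVE with `A = 4` (for `Aj` with the weights `bmq a ω' i (Lam_i a)`, BMQ, level
`(Lv u - (i + 1)) ω' + (i + 1) ω' = Lv / 100 ≤ 48 / 100`). With `V = ∏_{Qs} (1 - gd)`, `W = Vq a ω' (gd n c) j0 (z₀ u) > 0`, the main term is `(Th / 8)(Tm₀ m⁻ + (Tm₁ - Tm₀) m⁺ - ∑ c_i Tm₀ Gb_i m_i)` with `m⁻ ≥ (1 - l0 - ε) W`, `m⁺ ≤ (1 + u0 + ε) W`, `m_i ≤ (1 + w_i + ε) W`, `0 ≤ Gb_i ≤ gm i + η`,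
`V ≤ Tm₀ ≤ 1.001 V`, `- 0.002 V ≤ Tm₁ - Tm₀ ≤ 0` (negative `m⁺`, `m_i`: the summand is `≥ 0`): for small `ε`, `η` at least `(Th / 8) V W` times half of the number of FSy. `AD 1 a ω' η j0 (z₀ u) (gd n c)` is GN (and `gd ≥ 0`). `W ≥ ∏ (1 - gm i - η) ≥ c > 0`, `V ≥ c / (log a) ^ 3` (VLE), `Th ≥ (JJ ω / 2) x` (StPNT), and the errors are at most
`C x / (log x) ^ 4`. -/
def StCQE : Prop := ∀ (z₀ J₀ Lv : ℕ) (lam : ℝ), 0 < lam → 1 ≤ z₀ → z₀ ≤ J₀ → J₀ < Lv → Lv ≤ 48 → FSy z₀ J₀ Lv lam →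
  ∀ ω : ℝ → ℝ, IsB ω → 0 < JJ ω → ∃ u j0 : ℕ, 1 ≤ u ∧ 50 ≤ j0 ∧ j0 ≤ z₀ * u ∧
  ∃ η c₀ : ℝ, 0 < η ∧ 0 < c₀ ∧ ∃ a₀ : ℕ, ∀ (a n c b : ℕ) (x : ℝ), a₀ ≤ a → Nat.Coprime c (2 * n) → b < 30 →
    Nat.Coprime b 30 → (a : ℝ) ^ (999 / 1000 : ℝ) ≤ x → x ≤ a → GN u j0 (J₀ * u) η a n c →
    c₀ * x / Real.log a ^ 3 ≤ ∑ q ∈ PB x b, wq ω x q * (q0 a ((j0 : ℝ) * (1 / (100 * u))) n c q *
      idq a (1 / (100 * u)) j0 (z₀ * u) (vv n c q) *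
      (1 - ∑ i ∈ Ico (z₀ * u) (J₀ * u), lam * (1 - (i : ℝ) / (J₀ * u)) *
        (ejq a (1 / (100 * u)) i (vv n c q) : ℝ)))

open Classical in
/-- (PSE, assume `hR : StRT`.) PROOF. Small `a`: large `C`. `p ∣ 2 c`: no roots (RT). `p ∤ 2 c (3 c + 8 n)`: the `q` with `p ^ 2 ∣ vv n c q` are in at most two classes modulo `p ^ 2` (`r ≠ t` roots: `p ^ 2 ∣ c (r - t)(r + t + 1)`, and `p` does not divide both `r - t` and `r + t + 1`, otherwise `2 r + 1 ≡ 0` and `4 c vv = (c (2 r + 1)) ^ 2 + dd n c` gives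
`p ∣ dd n c`): at most `2 (a / p ^ 2 + 1)`. `p ∣ 3 c + 8 n`, `p ∤ 2 c`: one class modulo `p` (`c (2 r + 1) ≡ 0`): at most `a / p + 1`, and there are at most `log₂ (3 c + 8 n) ≤ 3 log₂ a + 4` such primes. Total at most
`∑_{p ≥ a ^ (9/100)} 2 a / p ^ 2 + 2 a ^ (9/10) + (3 log₂ a + 4)(a ^ (91/100) + 1) ≤ C a ^ (95/100)`. Compare `Pool/Agent/Helper9/KS/M_PSQ.lean`. -/
def StPSE : Prop := ∃ C : ℝ, 0 < C ∧ ∀ a n c : ℕ, 2 ≤ a → Nat.Coprime c (2 * n) → 1 ≤ c → c ≤ a → n ≤ a ^ 3 →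
  (((Icc 1 a).filter (fun q => ∃ p : ℕ, p.Prime ∧ (a : ℝ) ^ (9 / 100 : ℝ) ≤ (p : ℝ) ∧ (p : ℝ) ≤ (a : ℝ) ^ (9 / 10 : ℝ) ∧
    p ^ 2 ∣ vv n c q)).card : ℝ) ≤ C * (a : ℝ) ^ (95 / 100 : ℝ)

/-- (PTE, no hypotheses.) PROOF. As `Pool/Agent/Helper34/KS/M_PT3.lean`. If some `p ^ 2 ∣ v`, `p` prime, then `p > a ^ (9/10)`, `v = p ^ 2 t`, `t < a ^ (201/1000)`, and all primes of `t` are `≥ a ^ (9/100)`, so `Ω(t) ≤ 2`, `Ω(v) ≤ 4`. Otherwise `v` is squarefree; suppose `Ω(v) ≥ 6`. With `L = 0.46 log a`: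
`∑_{p ∣ v} (1 - log p / L) ≥ 6 - 2.001 / 0.46 ≥ 1.65`. The primes `p ≥ a ^ 0.46` contribute at most `0`, the others are in a box `j` with `9 u ≤ j < 46 u`, and there `1 - log p / L ≤ 1 - j / (46 u)`. `0.61 · 1.65 > 1`. -/
def StPTE : Prop := ∀ (u a v : ℕ), 1 ≤ u → 2 ≤ a → 1 ≤ v → (v : ℝ) ≤ (a : ℝ) ^ (2 + 1 / 1000 : ℝ) →
  (∀ p : ℕ, p.Prime → p ∣ v → (a : ℝ) ^ (9 / 100 : ℝ) ≤ (p : ℝ)) →
  (∀ p : ℕ, p.Prime → (p : ℝ) ≤ (a : ℝ) ^ (9 / 10 : ℝ) → ¬ p ^ 2 ∣ v) →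
  ∑ j ∈ Ico (9 * u) (46 * u), 61 / 100 * (1 - (j : ℝ) / (46 * u)) * (ejq a (1 / (100 * u)) j v : ℝ) < 1 →
  ArithmeticFunction.cardFactors v ≤ 5

/-! ## S. The numbers `s` -/

/-- (SEL, assume `hL : StLVE`, `h8 : StC8E`, `hV : StVLE`, `h3 : StB30`, `hP : StPNT`, `hu : StBump`.) PROOF. `ω` from StBump (`L = 1`: any bump), `f` from C8E, `θ = θ₁` from LVE. `C' = ⌈3 / θ⌉`, `a = ⌊(log n) ^ C'⌋`, `x = a`; so `a ^ θ ≥ (log n) ^ 2` for large `n`. `b` from B30 for `n := 0`, `c := 1`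
(`vv 0 1 s = s ^ 2 + s + 1`). LVE with `i = 1`, `n = 0`, `c = 1`, `lam` the delta function at `1` (`SW` with `y = 0`, `B = 1`, `j0 ω' = θ` e.g. `j0 = j = 1`, `ω' = θ`; `mg = 1`), and `tq 1 ≤ q0`:
`∑_{s ∈ PB x b} wq q0 ≥ (Th / 8) Tm 1 - x / (log x) ^ 4 ≥ c x / (log x) ^ 3`. As `wq ≤ log (3 x)`, there are at least `c x / (log x) ^ 4` primes `s ≤ 3 x` such that `s ^ 2 + s + 1` is prime to 30 and has no prime factor in `Qs a θ`, so all its prime factors are `≥ a ^ θ ≥ (log n) ^ 2`. If such an `s` is not admissible,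
some prime `p ≥ (log n) ^ 2` divides `n` and `s ^ 2 + s + 1`; there are at most `log₂ n` such `p`, and for each at most `2 (3 x / p + 1)` numbers `s ≤ 3 x` (at most two roots modulo `p`): in total at most `2 log₂ n (3 x / (log n) ^ 2 + 1) ≤ 20 x / log n`, which is less than half of `c x / (log x) ^ 4` (`log x ≤ C' log log n`). So the number of
admissible `s` tends to infinity. `s ≤ 3 x ≤ (log n) ^ (C' + 1)`; `s ^ 2 + s + 1` is odd. -/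
def StSEL : Prop := ∃ C₁ : ℕ, ∀ K : ℕ, ∃ n₀ : ℕ, ∀ n : ℕ, n₀ ≤ n → ∃ E : Finset ℕ, K < E.card ∧
  ∀ s ∈ E, s.Prime ∧ (s : ℝ) ≤ Real.log n ^ C₁ ∧ Nat.Coprime (s ^ 2 + s + 1) (2 * n)

/-! ## M. The characters -/

/-- (NCH, no hypotheses.) PROOF. As `StJCH` (`Pool/Agent/Helper43/KS/M_JCH.lean`) with `- D` instead of `D`: `x ↦ J(- D | x.val)` for units `x` of `ZMod (4 D)` (for odd `b` the value `J(- D | b)` depends on `b` modulo `4 D` only, `jacobiSym.mod_right`). -/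
def StNCH : Prop := ∀ D : ℕ, 1 ≤ D → ∃ (f : ℕ) (_ : NeZero f) (ψ : DirichletCharacter ℂ f), ψ.IsPrimitive ∧ f ≤ 4 * D ∧
  ∀ p : ℕ, p.Prime → p ≠ 2 → ¬ p ∣ D → ψ (p : ZMod f) = ((jacobiSym (-(D : ℤ)) p : ℤ) : ℂ)

/-- (DIS, no hypotheses.) PROOF. `g.c.d.(c, 3 c + 8 n) = g.c.d.(c, 8 n) = 1`. Let `3 c + 8 n = e v ^ 2`, `3 c' + 8 n = e' v' ^ 2`, `e`, `e'` squarefree (`Nat.sq_mul_squarefree`). Let `l ∣ e` be prime: `l ∤ c` and the exponent of `l` in `dd n c = c (3 c + 8 n)` is odd, so, as the product is a square, the exponent of `l` in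
`dd n c' = c' (3 c' + 8 n)` is odd and `l ∣ c' (3 c' + 8 n)`. If `l ∤ c'` then `l ∣ (3 c' + 8 n) - (3 c + 8 n) = 3 (c' - c)`. So every prime of the squarefree `e` divides `3 c' |c - c'| ≥ 1`, and `e ≤ 3 L ^ 2`. Take `d = c e`, `w = v`. -/
def StDIS : Prop := ∀ n c c' L : ℕ, 1 ≤ n → Nat.Coprime c (2 * n) → Nat.Coprime c' (2 * n) → c ≠ c' → 1 ≤ c → 1 ≤ c' →
  c ≤ L → c' ≤ L → IsSquare (dd n c * dd n c') → ∃ d w : ℕ, dd n c = d * w ^ 2 ∧ 1 ≤ d ∧ d ≤ 3 * L ^ 3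

/-- (SWB, assume `hS : StSW`.) No bias for small discriminants. PROOF. `X = a ^ (i ω)`, `Y = a ^ ((i + 1) ω)`, `ω = 1 / (100 u)`; `log X`, `log Y`, `log a` are proportional. The value `J(- d | p)` for odd `p` depends on `p` modulo `4 d` (`jacobiSym.mod_right`) and the sum of `J(- d | r)` over the `r < 4 d` prime to `4 d` is `0`: multiplication by `4 d - 1`
is a bijection of these classes and `J(- d | 4 d - 1) = J(- 1 | 4 d - 1) J(d | 4 d - 1) = - 1` (`4 d - 1 ≡ 3` modulo `4`; `4 d ≡ 1` modulo `4 d - 1`, so `J(4 d | 4 d - 1) = 1 = J(2 | 4 d - 1) ^ 2 J(d | 4 d - 1)`). So by StSW (sum over the classes modulo `4 d ≤ 4 (log a) ^ C₁`; classes not prime to `4 d` contain no primes `> X`)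
`|∑_{X ≤ n ≤ y} th n J(- d | n)| ≤ 8 d Y / (log Y) ^ A` for `y ≤ Y`. Because `Y / X` is a power of `a`, split `[X, Y]` into dyadic ranges `[Z, 2 Z]`: by Abel summation `|∑_{Z ≤ p < 2 Z} J(- d | p) / p| = |∑ th n J(- d | n) / (n log n)| ≤ C d / (log Z) ^ A` (StSW with `x = 2 Z`), and there are at most `C log a` ranges. -/
def StSWB : Prop := ∀ (C₁ u i : ℕ) (η : ℝ), 1 ≤ u → 1 ≤ i → 0 < η → ∃ a₀ : ℕ, ∀ a d : ℕ, a₀ ≤ a → 1 ≤ d →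
  (d : ℝ) ≤ Real.log a ^ C₁ → |cs a u i d| ≤ η

/-- (BOX, assume `hN : StNCH`, `hS : StSQR`, `hD : StDUA`, `hM : StM2`.) PROOF. As `Pool/Agent/Helper80/KS/M_DYC.lean` and `Helper62/KS/M_PSI.lean`. `ω = 1 / (100 u)`, `N = n`; `a ≤ √n < a + 1`. For `c ∈ E` take `ψ` from NCH for `D = dd n c ≤ c (3 c + 8 n)`, conductor `≤ 4 D ≤ 16 n ^ 2` for large `a`. For `c ≠ c'` in `E` the characters differ at some
`k`: otherwise `J(- D | p) = J(- D' | p) = ± 1`, so `J(D D' | p) = 1` for all primes `p ≥ 7`, `p ∤ D D'`, and by SQR `D D'` is a square. `|cs a u i D - ∑_{p ∈ bq} ψ p / p| ≤ ∑_{p ∣ D} 1 / p ≤ log₂ D / a ^ (i ω) ≤ η / 2`, so the sum of `ψ p / p` over the box has absolute value `≥ η / 2`. DUA with the box `[n ^ α, n ^ β] ⊇ [a ^ (i ω), a ^ ((i + 1) ω)]`,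
`α = i ω / 3`, `β = (i + 1) ω`, `m = ⌈12 / α⌉`, `δ = η / 2`, `S = bq a ω i` (`∑ 1 / p ≤ 1` for large `a`: StM2, the limit is `log ((i + 1) / i) ≤ log 2`), index set `E` (`E ⊆ [1, (log a) ^ C₁]`, so `|E| ≤ 2 n`), functions `f`, `ψ` of the index `c` (arbitrary outside `E`): `|E| (η / 2) ^ (2 m) ≤ C`. -/
def StBOX : Prop := ∀ (C₁ u i : ℕ) (η : ℝ), 1 ≤ u → 1 ≤ i → 0 < η → ∃ K a₀ : ℕ, ∀ (a n : ℕ) (E : Finset ℕ), a₀ ≤ a →
  a ^ 2 ≤ n → n < (a + 1) ^ 2 → (∀ c ∈ E, Nat.Coprime c (2 * n) ∧ 1 ≤ c ∧ (c : ℝ) ≤ Real.log a ^ C₁) →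
  (∀ c ∈ E, ∀ c' ∈ E, c ≠ c' → ¬ IsSquare (dd n c * dd n c')) → (∀ c ∈ E, η ≤ |cs a u i (dd n c)|) → E.card ≤ K

/-- (ONE, assume `hD : StDIS`, `hS : StSWB`, `hB : StBOX`.) PROOF. `K` = the sum over `i ∈ [j0, J)` of the numbers of BOX (with `η`). First case: there are `c ≠ c'` in `E` such that `dd n c * dd n c'` is a square. By DIS (`L = ⌊(log a) ^ C₁⌋`) `dd n c = d w ^ 2`, `d ≤ 3 L ^ 3 ≤ (log a) ^ (3 C₁ + 1)`. For a prime `p ∤ w`, `p` odd,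
`J(- dd n c | p) = J(- d | p)`; so `|cs a u i (dd n c) - cs a u i d| ≤ ∑_{p ∣ w, p ∈ bq} 2 / p ≤ 2 log₂ (dd n c) / a ^ (i ω) ≤ η / 2` for large `a`, and `|cs a u i d| ≤ η / 2` by SWB (for `3 C₁ + 1`). Second case: no product is a square; if no `c ∈ E` had the property, `E` would be the union over `i` of the sets `{c ∈ E : η < |cs a u i (dd n c)|}`,
which have at most `K_i` elements by BOX. -/
def StONE : Prop := ∀ (C₁ u j0 J : ℕ) (η : ℝ), 1 ≤ u → 1 ≤ j0 → 0 < η → ∃ K a₀ : ℕ, ∀ (a n : ℕ) (E : Finset ℕ), a₀ ≤ a →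
  a ^ 2 ≤ n → n < (a + 1) ^ 2 → K < E.card → (∀ c ∈ E, Nat.Coprime c (2 * n) ∧ 1 ≤ c ∧ (c : ℝ) ≤ Real.log a ^ C₁) →
  ∃ c ∈ E, ∀ i ∈ Ico j0 J, |cs a u i (dd n c)| ≤ η

/-- (GNE, assume `hR : StRT`, `hM : StM2`.) PROOF. `η' = η / 4`. For `p ∈ bq a ω i`, `p ≥ a ^ (i ω) ≥ 7`: `gd n c p ≤ (1 + J(- dd n c | p)) / (p - 1)` if `p ∤ dd n c` (RT), `gd n c p ≤ 2 / (p - 1)` otherwise. So `Gb ≤ ∑_{bq} 1 / (p - 1) + ∑_{bq} J(- dd n c | p) / (p - 1) + ∑_{p ∣ dd n c, p ∈ bq} 3 / (p - 1)`. `1 / (p - 1) - 1 / p ≤ 2 / p ^ 2` changes the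
first two sums by at most `4 / a ^ (i ω)` each (sum over all integers `≥ a ^ (i ω)`), the last sum is at most `6 log₂ (dd n c) / a ^ (i ω)` (`dd n c ≤ a ^ 5`), and `∑_{bq} 1 / p ≤ gm i + η / 4` by StM2 (`z = a`, exponents `i ω`, `(i + 1) ω`; compare `Pool/Agent/Helper53/KS/M_AB.lean`). -/
def StGNE : Prop := ∀ (u j0 J : ℕ) (η : ℝ), 1 ≤ u → 1 ≤ j0 → 0 < η → ∃ a₀ : ℕ, ∀ a n c : ℕ, a₀ ≤ a → n < (a + 1) ^ 2 →
  1 ≤ c → c ≤ a → Nat.Coprime c (2 * n) → (∀ i ∈ Ico j0 J, cs a u i (dd n c) ≤ η / 4) → GN u j0 J η a n c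

/-! ## Z. The end -/

open Classical in
/-- the `k < 2 n` of the theorem -/
def kk (n : ℕ) : Finset ℕ := (Ico 1 (2 * n)).filter (fun k =>
  ArithmeticFunction.cardFactors (2 * n + sigma 1 k) ≤ 5 ∧
  ∀ p : ℕ, p.Prime → p ∣ 2 * n + sigma 1 k → (n : ℝ) ^ (1 / 25 : ℝ) ≤ (p : ℝ))

open Classical in
/-- (KSI, assume `hT : StPTE`, `h3 : StB30`.) One `q`. PROOF. `k = (s q) ^ 2`, `1 ≤ k ≤ a ^ 2 ≤ n < 2 n`; `σ(k) = (s ^ 2 + s + 1)(q ^ 2 + q + 1)` (`s ≠ q` primes, `sigma` multiplicative, `sigma_one_apply_prime_pow` or direct), so `2 n + σ(k) = v = vv n c q`, `c = s ^ 2 + s + 1`. `σ(k) ≤ 4 (s q) ^ 2 ≤ 4 a ^ 2` (`x ^ 2 + x + 1 ≤ 2 x ^ 2` for `x ≥ 2`), so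
`v ≤ 2 (a + 1) ^ 2 + 4 a ^ 2 ≤ a ^ (2 + 1/1000)` for large `a`. `v` is prime to 30 (hypothesis on `b`); since `q0 ≠ 0` and `idq ≠ 0` no prime `7 ≤ p < a ^ (j0 ω)` and no prime of a box `j0 ≤ i < 9 u` divides `v`, so every prime factor of `v` is `≥ a ^ (9/100)` (`9 u ω = 9/100`) `≥ n ^ (1/25)` for large `a` (`n < (a + 1) ^ 2`). The summand is positive, so `∑ .. < 1`: PTE. -/
def StKSI : Prop := ∃ a₀ : ℕ, ∀ (u j0 a n s q b : ℕ), a₀ ≤ a → a ^ 2 ≤ n → n < (a + 1) ^ 2 → 1 ≤ u → 50 ≤ j0 → j0 ≤ 9 * u →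
  s.Prime → q.Prime → s < q → s * q ≤ a → Nat.Coprime (s ^ 2 + s + 1) (2 * n) → q % 30 = b →
  (∀ q' : ℕ, q' % 30 = b → Nat.Coprime (vv n (s ^ 2 + s + 1) q') 30) →
  (∀ p : ℕ, p.Prime → (p : ℝ) ≤ (a : ℝ) ^ (9 / 10 : ℝ) → (a : ℝ) ^ (9 / 100 : ℝ) ≤ (p : ℝ) → ¬ p ^ 2 ∣ vv n (s ^ 2 + s + 1) q) →
  0 < q0 a ((j0 : ℝ) * (1 / (100 * u))) n (s ^ 2 + s + 1) q *
      idq a (1 / (100 * u)) j0 (9 * u) (vv n (s ^ 2 + s + 1) q) *
      (1 - ∑ i ∈ Ico (9 * u) (46 * u), 61 / 100 * (1 - (i : ℝ) / (46 * u)) *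
        (ejq a (1 / (100 * u)) i (vv n (s ^ 2 + s + 1) q) : ℝ)) → (s * q) ^ 2 ∈ kk n

/-- (FIN, assume `hQ : StCQE`, `hF : StFSE`, `hS : StPSE`, `hE : StSEL`, `hO : StONE`, `hG : StGNE`, `h3 : StB30`, `hK : StKSI`, `hu : StBump`.) PROOF. `ω` from StBump (`L = 1`). CQE for `(9, 46, 48, 61/100)` gives `u`, `j0`, `η`, `c₀`. `C₁` from SEL; for `s ≤ (log n) ^ C₁` the number `c = s ^ 2 + s + 1` is at most `(log a) ^ C₂`, `C₂ = 2 C₁ + 1`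
(`log n ≤ 2 log (a + 1) ≤ 3 log a`). ONE for `C₂`, `u`, `j0`, `J = 46 u`, `η / 4` gives `K`, SEL for `K` gives `E`; the map `s ↦ s ^ 2 + s + 1` is injective, so ONE applies to the image, and there is `s ∈ E` with `|cs| ≤ η / 4` for all boxes; GNE: `GN`. `b` from B30. `x = a / (3 s)`, `a ^ (999/1000) ≤ x ≤ a` for large `a`. CQE:
`c₀ x / (log a) ^ 3 ≤ ∑_{q ∈ PB x b} wq (..)`, where `(..) ≤ 1` and `wq ≤ log (3 x) ≤ log a` and `wq = 0` for `q < x` (IsB.supp), so for `wq ≠ 0`: `s < x ≤ q ≤ 3 x = a / s`. The `q` with `p ^ 2 ∣ v` for some `p ∈ [a ^ (9/100), a ^ (9/10)]` are at most `C a ^ (95/100)` (PSE), all other `q` with a positive summand give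
`(s q) ^ 2 ∈ kk n` (KSI), different `q` different elements. So `|kk n| ≥ (c₀ x / (log a) ^ 3) / log a - C a ^ (95/100) ≥ √n / (log n) ^ C₃`. -/
def StFIN : Prop := ∃ C n₀ : ℕ, ∀ n : ℕ, n₀ ≤ n → √(n : ℝ) / Real.log n ^ C ≤ ((kk n).card : ℝ)

end Pool.Agent.Helper30.EL
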